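import Mathlib

namespace Pool.Agent.Results.MP_9cf868_co.Seven

/-- `N^{RB}(X)`: vertices joined to `X` by a red edge and by a blue edge. -/
def NRB {V : Type} (R B : SimpleGraph V) (X : Set V) : Set V :=
  {v | (∃ x ∈ X, R.Adj v x) ∧ ∃ x ∈ X, B.Adj v x}

/-- `p` lists the vertices of an alternating path in the graph with red edges `R` and blue
edges `B`. -/
def AltPath {V : Type} (R B : SimpleGraph V) (p : List V) : Prop :=
  p.Nodup ∧ (∀ i (h : i + 1 < p.length), R.Adj p[i] p[i + 1] ∨ B.Adj p[i] p[i + 1]) ∧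
    ∀ i (h : i + 2 < p.length), ¬ (R.Adj p[i] p[i + 1] ∧ R.Adj p[i + 1] p[i + 2]) ∧
      ¬ (B.Adj p[i] p[i + 1] ∧ B.Adj p[i + 1] p[i + 2])

def mk (E : List (Fin 7 × Fin 7)) : SimpleGraph (Fin 7) where
  Adj a b := a ≠ b ∧ ((a, b) ∈ E ∨ (b, a) ∈ E)
  symm := ⟨fun _ _ h => ⟨h.1.symm, h.2.symm⟩⟩
  loopless := ⟨fun _ h => h.1 rfl⟩

instance (E : List (Fin 7 × Fin 7)) : DecidableRel (mk E).Adj := fun a b =>
  inferInstanceAs (Decidable (a ≠ b ∧ ((a, b) ∈ E ∨ (b, a) ∈ E)))

abbrev R := mk [(0, 4), (0, 5), (2, 5), (0, 6), (3, 6)]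
abbrev B := mk [(1, 4), (1, 5), (3, 5), (1, 6), (2, 6)]

def ok : List (Fin 7) → Bool
  | a :: b :: c :: _ => !(decide (R.Adj a b ∧ R.Adj b c)) && !(decide (B.Adj a b ∧ B.Adj b c)) &&
      decide (R.Adj a b ∨ B.Adj a b)
  | [a, b] => decide (R.Adj a b ∨ B.Adj a b)
  | _ => true

def paths : ℕ → List (List (Fin 7))
  | 0 => [[]]
  | n + 1 => (paths n).flatMap fun p =>
      ((List.finRange 7).filter fun a => decide (a ∉ p) && ok (a :: p)).map (· :: p)

theorem mem_paths (p : List (Fin 7)) (h : AltPath R B p) : p ∈ paths p.length := by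
  induction p with
  | nil => simp [paths]
  | cons a p ih =>
    obtain ⟨h1, h2, h3⟩ := h
    have hp : AltPath R B p := ⟨(List.nodup_cons.mp h1).2,
      fun i hi => h2 (i + 1) (by simpa using hi), fun i hi => h3 (i + 1) (by simp; omega)⟩
    simp only [List.length_cons, paths, List.mem_flatMap, List.mem_map, List.mem_filter,
      List.mem_finRange, true_and, Bool.and_eq_true, decide_eq_true_eq]
    refine ⟨p, ih hp, a, ⟨(List.nodup_cons.mp h1).1, ?_⟩, rfl⟩
    match p, h2, h3 with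
    | [], _, _ => rfl
    | [b], h2, _ => simpa [ok] using h2 0 (by simp)
    | b :: c :: q, h2, h3 =>
      have e1 := h2 0 (by simp)
      have e2 := h3 0 (by simp)
      simp only [ok, Bool.and_eq_true, Bool.not_eq_true', decide_eq_false_iff_not,
        decide_eq_true_eq]
      exact ⟨⟨e2.1, e2.2⟩, e1⟩

theorem result : ∃ (V : Type) (_ : Fintype V) (R B : SimpleGraph V) (A : Set V),
    Disjoint R B ∧ (∀ u v, (R ⊔ B).Adj u v → (u ∈ A ↔ v ∉ A)) ∧
    (∀ X ⊆ A, X.ncard ≤ (NRB R B X).ncard + 1) ∧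
    ¬ ∃ p, AltPath R B p ∧ ∀ a ∈ A, a ∈ p := by
  refine ⟨Fin 7, inferInstance, R, B, {a | a.val < 4}, ?_, ?_, ?_, ?_⟩
  · rw [disjoint_iff]
    ext a b
    simp only [SimpleGraph.inf_adj, SimpleGraph.bot_adj]
    revert a b; decide
  · simp only [SimpleGraph.sup_adj, Set.mem_ofPred_eq]; decide
  · intro X hX
    lift X to Finset (Fin 7) using Set.toFinite X
    have : NRB R B X = ↑(Finset.univ.filter
        (fun v => (∃ x ∈ X, R.Adj v x) ∧ ∃ x ∈ X, B.Adj v x)) := by
      ext v; simp [NRB]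
    rw [this, Set.ncard_coe_finset, Set.ncard_coe_finset]
    have hX' : ∀ a ∈ X, a.val < 4 := fun a ha => hX ha
    clear this hX
    revert X; decide +kernel
  · rintro ⟨p, hp, hA⟩
    have h1 := mem_paths p hp
    have h2 : p.length < 8 := by
      have := hp.1.length_le_card
      simp at this; omega
    have key : ∀ n < 8, ∀ p ∈ paths n, ¬ ∀ a : Fin 7, a.val < 4 → a ∈ p := by decide +kernel
    exact key _ h2 p h1 hA

end Pool.Agent.Results.MP_9cf868_co.Seven
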